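import Pool.Agent.H43.AG3.Gram
import Pool.Agent.H43.AG2.Bis

/-!
# Trees with bounded blocks of nullable variables: the simulation
-/

set_option autoImplicit false

namespace Pool.Agent.H43.AG3

open Classical Pool.Agent.H43.AG Pool.Agent.H43.AG2

variable {V T : Type}

/-- cells which are not the first cell of a left side -/
def Bad (m : ℕ) (C : Cell V T (m + 1)) : Prop :=
  C.1.1.length = m + 1 ∨ (C.1.1 = [] ∧ (∃ a, C.2.1 = some (Sum.inr a)) ∧
    ∃ e, C.2.2 = some e ∧ e.1.length = m + 1)

theorem tk_len (k : ℕ) (b : List V) (h : b.length ≤ k) : (tk k b).1.length = b.length := by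
  rw [tk]
  simp only [List.length_take]
  exact min_eq_right h

theorem tk_full (m : ℕ) (b : List V) (h : m < b.length) :
    (tk (m + 1) b).1.length = m + 1 := by
  rw [tk]
  simp only [List.length_take]
  omega

theorem up [Finite V] [Finite T] (G : Grammar V T) (N : Set V) (c m : ℕ)
    {l : Form (Cell V T c) T} {A : V} {p : Form V T → Form (Cell V T c) T}
    (hl : LS N c m l A p) {R : Set (Form V T)} (hR : R ∈ Ch G A) (u w : List T)
    (e : Form (Cell V T c) T) (h : ∀ r ∈ R, AG.Tree (GG G N c m) w (word u ++ p r ++ e)) :
    AG.Tree (GG G N c m) w (word u ++ l ++ e) := by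
  rcases hR with ⟨hu, ⟨r0, hr0⟩, rfl⟩ | ⟨hu, r, hrP, rfl⟩
  · refine AG.Tree.node _ _ (Step.all u l e ((ls_univ G N c m hl).2 hu)
      ⟨p r0, Or.inl ⟨A, p, r0, hl, hr0, rfl⟩⟩) ?_
    rintro x ⟨r', hr', rfl⟩
    rcases hr' with ⟨A', p', r, hl', hrP, hr2⟩ | hg
    · simp only at hl' hr2
      obtain ⟨_, _, _, rfl, rfl⟩ := ls_unique N c m hl hl' [] [] [] [] rfl
      rw [hr2]
      exact h r hrP
    · exact (ls_gs G N c m hl hg [] [] [] [] rfl).elim
  · refine AG.Tree.node _ _ (Step.ex u l (p r) e (fun hh => hu ((ls_univ G N c m hl).1 hh))
      (Or.inl ⟨A, p, r, hl, hrP, rfl⟩)) ?_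
    rintro x hx
    rw [Set.mem_singleton_iff] at hx
    rw [hx]
    exact h r rfl

theorem down [Finite V] [Finite T] (G : Grammar V T) (N : Set V) (c m : ℕ)
    {l : Form (Cell V T c) T} {A : V} {p : Form V T → Form (Cell V T c) T}
    (hl : LS N c m l A p) (u : List T) (e x : Form (Cell V T c) T)
    (C : Set (Form (Cell V T c) T)) (hC : Step (GG G N c m) x C) (hx : x = word u ++ l ++ e) :
    ∃ R ∈ Ch G A, ∀ r ∈ R, word u ++ p r ++ e ∈ C := by
  cases hC with
  | ex y l' r' e' hu hP =>
    rcases hP with ⟨A', p', r, hl', hrP, hr2⟩ | hg
    · simp only at hl' hr2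
      obtain ⟨rfl, rfl, rfl, rfl, rfl⟩ := ls_unique N c m hl' hl y u e' e hx
      refine ⟨{r}, Or.inr ⟨fun hh => hu ((ls_univ G N c m hl).2 hh), r, hrP, rfl⟩, ?_⟩
      intro r1 hr1
      rw [Set.mem_singleton_iff] at hr1
      rw [hr1, hr2]
      rfl
    · exact (ls_gs G N c m hl hg u y e e' hx.symm).elim
  | all y l' e' hu hP =>
    obtain ⟨r', hP⟩ := hP
    rcases hP with ⟨A', p', r, hl', hrP, hr2⟩ | hg
    · simp only at hl' hr2
      obtain ⟨rfl, rfl, rfl, rfl, rfl⟩ := ls_unique N c m hl' hl y u e' e hx
      refine ⟨{r | ([Sum.inl A'], r) ∈ G.P},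
        Or.inl ⟨(ls_univ G N c m hl).1 hu, ⟨r, hrP⟩, rfl⟩, ?_⟩
      intro r1 hr1
      exact ⟨p' r1, Or.inl ⟨A', p', r1, hl, hr1, rfl⟩, rfl⟩
    · exact (ls_gs G N c m hl hg u y e e' hx.symm).elim

theorem pp_cons (G : Grammar V T) (N : Set V) (m : ℕ) {l r : Form (Cell V T (m + 1)) T}
    (h : (l, r) ∈ PP G N (m + 1) m) :
    ∃ C a, l = Sum.inl C :: a ∧ C ≠ bot (m + 1) [] ∧ ¬ Bad m C := by
  have hnil : (tk (m + 1) ([] : List V)).1 = [] := by simp [tk]
  rcases h with ⟨A, p, r', hl, _, _⟩ | hg
  · simp only at hl
    cases hl with
    | one A b z t _ _ hb hbm _ =>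
      refine ⟨_, _, by rw [symT_cons], by simp [bot], ?_⟩
      rintro (h | ⟨h, _⟩)
      · have := tk_len (m + 1) (A :: b) hb
        simp only at h
        omega
      · have := tk_len (m + 1) (A :: b) hb
        simp only at h
        rw [h] at this
        simp at this
    | two Z b z t _ _ _ _ =>
      refine ⟨_, _, rfl, by simp [bot, mk], ?_⟩
      rintro (h | ⟨_, _, e, h, _⟩)
      · simp only [mk] at h
        rw [hnil] at h
        simp at h
      · simp [mk] at h
    | bt A b _ hb hbm =>
      refine ⟨_, _, rfl, fun h => ?_, ?_⟩
      · simp only [bot, Prod.mk.injEq, and_true] at h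
        exact tk_cons_ne (m + 1) A b hb h
      · rintro (h | ⟨_, _, e, h, _⟩)
        · have := tk_len (m + 1) (A :: b) hb
          simp only [bot] at h
          omega
        · simp [bot] at h
    | last Z e _ _ =>
      refine ⟨_, _, rfl, by simp [bot, lst], ?_⟩
      rintro (h | ⟨_, ⟨a, h⟩, _⟩)
      · simp only [lst] at h
        rw [hnil] at h
        simp at h
      · simp [lst] at h
  · simp only at hg
    have key : ∀ (a : T) (e : List V), e.length ≤ m + 1 → e.length ≤ m →
        ¬ Bad m (lst (m + 1) [] (Sum.inr a) e) := by
      intro a e h1 h2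
      rintro (h | ⟨_, _, e', h, h'⟩)
      · simp only [lst] at h
        rw [hnil] at h
        simp at h
      · simp only [lst, Option.some.injEq] at h
        have := tk_len (m + 1) e h1
        rw [h] at this
        omega
    cases hg with
    | stay a e _ h1 h2 => exact ⟨_, _, rfl, by simp [bot, lst], key a e h1 h2⟩
    | drop a e _ h1 h2 _ => exact ⟨_, _, rfl, by simp [bot, lst], key a e h1 h2⟩

theorem step_cell [Finite V] [Finite T] (G : Grammar V T) (N : Set V) (m : ℕ)
    {x : Form (Cell V T (m + 1)) T} {C : Set (Form (Cell V T (m + 1)) T)}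
    (hC : Step (GG G N (m + 1) m) x C) :
    ∃ (y : List T) (D : Cell V T (m + 1)) (e : Form (Cell V T (m + 1)) T),
      x = word y ++ Sum.inl D :: e ∧ D ≠ bot (m + 1) [] ∧ ¬ Bad m D := by
  cases hC with
  | ex y l r e _ hP =>
    obtain ⟨D, a, rfl, hD⟩ := pp_cons G N m hP
    exact ⟨y, D, a ++ e, by simp, hD⟩
  | all y l e _ hP =>
    obtain ⟨r, hP⟩ := hP
    obtain ⟨D, a, rfl, hD⟩ := pp_cons G N m hP
    exact ⟨y, D, a ++ e, by simp, hD⟩

theorem no_step_word [Finite V] [Finite T] (G : Grammar V T) (N : Set V) (m : ℕ) (v : List T)
    {C : Set (Form (Cell V T (m + 1)) T)} (hC : Step (GG G N (m + 1) m) (word v) C) :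
    False := by
  obtain ⟨y, D, e, h, _⟩ := step_cell G N m hC
  have : Sum.inl D ∈ (word v : Form (Cell V T (m + 1)) T) := by
    rw [h]
    simp
  exact inl_word D v this

theorem no_step_bot [Finite V] [Finite T] (G : Grammar V T) (N : Set V) (m : ℕ) (u : List T)
    {C : Set (Form (Cell V T (m + 1)) T)}
    (hC : Step (GG G N (m + 1) m) (word u ++ [Sum.inl (bot (m + 1) [])]) C) : False := by
  obtain ⟨y, D, e, h, hD, _⟩ := step_cell G N m hC
  obtain ⟨_, h2, _⟩ := var_unique u y _ D [] e h
  exact hD h2.symm

theorem no_step_bad [Finite V] [Finite T] (G : Grammar V T) (N : Set V) (m : ℕ) (u : List T)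
    (D0 : Cell V T (m + 1)) (e0 x : Form (Cell V T (m + 1)) T)
    (hx : x = word u ++ Sum.inl D0 :: e0) (hD0 : Bad m D0)
    {C : Set (Form (Cell V T (m + 1)) T)} (hC : Step (GG G N (m + 1) m) x C) : False := by
  obtain ⟨y, D, e, h, _, hD⟩ := step_cell G N m hC
  rw [hx] at h
  obtain ⟨_, h2, _⟩ := var_unique u y D0 D e0 e h
  rw [← h2] at hD
  exact hD hD0

theorem block_le (N : Set V) : ∀ (b1 b2 : List V) (q q2 : Form V T) (z : V ⊕ T),
    b1.map Sum.inl ++ q = b2.map Sum.inl ++ z :: q2 → (∀ B ∈ b1, B ∈ N) → Out N z →
    b1.length ≤ b2.length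
  | [], b2, _, _, _, _, _, _ => Nat.zero_le _
  | B :: b1, [], q, q2, z, h, hb, hz => by
    simp only [List.map_cons, List.cons_append, List.map_nil, List.nil_append,
      List.cons.injEq] at h
    rw [← h.1] at hz
    exact absurd (hb B (by simp)) hz
  | B :: b1, B' :: b2, q, q2, z, h, hb, hz => by
    simp only [List.map_cons, List.cons_append, List.cons.injEq] at h
    have := block_le N b1 b2 q q2 z h.2 (fun C hC => hb C (by simp [hC])) hz
    simp only [List.length_cons]
    omega

/-- forms with a long block in front have a bad first cell -/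
theorem bad_lead (N : Set V) (m : ℕ) (u : List T) (A : V) (d : Form V T)
    (h : ¬ LB N m (word u ++ Sum.inl A :: d)) :
    ∃ (y : List T) (D : Cell V T (m + 1)) (e : Form (Cell V T (m + 1)) T),
      encL N (m + 1) [] (word u ++ Sum.inl A :: d) = word y ++ Sum.inl D :: e ∧ Bad m D := by
  rw [LB] at h
  push Not at h
  obtain ⟨x, b, q, h1, h2, h3⟩ := h
  rcases b with _ | ⟨B, b1⟩
  · simp at h3
  · have h1' : (word u ++ Sum.inl A :: d : Form V T)
        = word x ++ Sum.inl B :: (b1.map Sum.inl ++ q) := by
      rw [h1]
      simp
    obtain ⟨rfl, rfl, rfl⟩ := var_unique u x A B d _ h1'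
    have hA : A ∈ N := h2 A (by simp)
    have hb1 : ∀ B ∈ b1, B ∈ N := fun B hB => h2 B (by simp [hB])
    by_cases hO : HasOut N (Sum.inl A :: (b1.map Sum.inl ++ q))
    · have hd : HasOut N (b1.map Sum.inl ++ q) := by
        obtain ⟨y, hy, hy2⟩ := hO
        rcases List.mem_cons.1 hy with rfl | hy
        · exact absurd hA hy2
        · exact ⟨y, hy, hy2⟩
      obtain ⟨b2, z, q2, t, e, g1, g2, g3, g4, g5, g6⟩ :=
        tail_spec N (m + 1) (Nat.succ_pos m) _ hd
      have hlen := block_le N b1 b2 q q2 z g1 hb1 g3
      refine ⟨u, (tk (m + 1) (A :: b2), some z, t.map (tk (m + 1))), e, ?_, Or.inl ?_⟩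
      · rw [encL_word N (m + 1) u _ hO, encL_in N (m + 1) [] A _ hA, g5]
        rw [List.nil_append, List.singleton_append, symT_cons]
      · apply tk_full
        simp only [List.length_cons] at h3 ⊢
        omega
    · obtain ⟨b0, hb0, hN0⟩ := no_out N _ hO
      rcases b0 with _ | ⟨A', b'⟩
      · simp at hb0
      · simp only [List.map_cons, List.cons.injEq, Sum.inl.injEq] at hb0
        obtain ⟨rfl, hb0⟩ := hb0
        have hlen : m < (A :: b').length := by
          have := congrArg List.length hb0
          simp only [List.length_append, List.length_map] at this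
          simp only [List.length_cons] at h3 ⊢
          omega
        rcases List.eq_nil_or_concat u with rfl | ⟨u0, a, rfl⟩
        · refine ⟨[], bot (m + 1) (A :: b'), [], ?_, Or.inl (tk_full m _ hlen)⟩
          have := encL_bot (T := T) N (m + 1) (A :: b') [] hN0
          rw [hb0]
          simpa [word] using this
        · refine ⟨u0, lst (m + 1) [] (Sum.inr a) (A :: b'), [], ?_,
            Or.inr ⟨by simp [lst, tk], ⟨a, rfl⟩, tk (m + 1) (A :: b'), rfl, tk_full m _ hlen⟩⟩
          rw [List.concat_eq_append, hb0]
          exact encL_guess N (m + 1) u0 a A b' hN0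

theorem forth [Finite V] [Finite T] (G : Grammar V T) (hG : ContextFree G) (N : Set V) (m : ℕ)
    (hN : ∀ (A : V) (r : Form V T), A ∉ N → ([Sum.inl A], r) ∈ G.P → ∃ z ∈ r, Out N z)
    (w : List T) (hw : w ≠ []) (g : Form V T) (h : TreeB G N m w g) :
    AG.Tree (GG G N (m + 1) m) w (encL N (m + 1) [] g) ∧
      (∀ (u : List T) (b : List V), g = word u ++ b.map Sum.inl → (∀ B ∈ b, B ∈ N) → w ≠ u →
        AG.Tree (GG G N (m + 1) m) w (word u ++ [Sum.inl (bot (m + 1) b)])) := by
  induction h with
  | leaf =>
    constructor
    · rw [encL_wordonly N (m + 1) w hw]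
      exact AG.Tree.leaf
    · intro u b hg _ hu
      rcases b with _ | ⟨B, b⟩
      · rw [List.map_nil, List.append_nil] at hg
        exact absurd (word_inj V w u hg) hu
      · have : Sum.inl B ∈ (word w : Form V T) := by
          rw [hg]
          simp
        exact absurd this (inl_word B w)
  | node g C hL hC hT ih =>
    have hself := TreeB.node g C hL hC hT
    obtain ⟨u, A, d, R, hR, rfl, rfl⟩ := (step_iff G hG _ _).1 hC
    have P2 : ∀ (u' : List T) (b : List V),
        (word u ++ Sum.inl A :: d : Form V T) = word u' ++ b.map Sum.inl →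
        (∀ B ∈ b, B ∈ N) → w ≠ u' →
          AG.Tree (GG G N (m + 1) m) w (word u' ++ [Sum.inl (bot (m + 1) b)]) := by
      intro u' b hg hNb hu
      rcases b with _ | ⟨B, b⟩
      · rw [List.map_nil, List.append_nil] at hg
        have : Sum.inl A ∈ (word u' : Form V T) := by
          rw [← hg]
          simp
        exact absurd this (inl_word A u')
      · rw [List.map_cons] at hg
        obtain ⟨rfl, rfl, rfl⟩ := var_unique u u' A B d (b.map Sum.inl) hg
        have hl : (A :: b).length ≤ m := by
          refine hL u (A :: b) [] ?_ hNb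
          simp
        have := up G N (m + 1) m (LS.bt A b (hNb A (by simp)) (by omega) hl) hR u w []
          (fun r hrR => ?_)
        · simpa using this
        · rw [List.append_nil]
          by_cases hO : HasOut N (r ++ b.map Sum.inl)
          · rw [← encL_word N (m + 1) u _ hO]
            have := (ih _ ⟨r, hrR, rfl⟩).1
            simp only [List.append_assoc] at this
            exact this
          · obtain ⟨b2, hb2, hN2⟩ := no_out N _ hO
            rw [hb2, encL_bot N (m + 1) b2 [] hN2, List.nil_append]
            refine (ih _ ⟨r, hrR, rfl⟩).2 u b2 ?_ hN2 hu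
            simp only [List.append_assoc, hb2]
    refine ⟨?_, P2⟩
    by_cases hm : HasOut N (Sum.inl A :: d) ∨ u = []
    · obtain ⟨l, p, e, hl, h1, h2⟩ := sim G N m hN u A d hL hm
      rw [h1]
      refine up G N (m + 1) m hl hR u w e (fun r hrR => ?_)
      have hrP := ch_mem G hR hrR
      rw [← h2 r hrP]
      exact (ih _ ⟨r, hrR, rfl⟩).1
    · push Not at hm
      obtain ⟨hO, hu0⟩ := hm
      obtain ⟨b0, hb0, hN0⟩ := no_out N _ hO
      rcases b0 with _ | ⟨A', b⟩
      · simp at hb0
      · simp only [List.map_cons, List.cons.injEq, Sum.inl.injEq] at hb0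
        obtain ⟨rfl, rfl⟩ := hb0
        rcases List.eq_nil_or_concat u with rfl | ⟨u0, a, rfl⟩
        · exact absurd rfl hu0
        · rw [List.concat_eq_append] at hL P2 hself ⊢
          have hl : (A :: b).length ≤ m := by
            refine hL (u0 ++ [a]) (A :: b) [] ?_ hN0
            simp
          have e1 : (word (u0 ++ [a]) ++ Sum.inl A :: b.map Sum.inl : Form V T)
              = word (u0 ++ [a]) ++ (A :: b).map Sum.inl := rfl
          rw [e1, encL_guess N (m + 1) u0 a A b hN0]
          by_cases hwu : w = u0 ++ [a]
          · obtain ⟨v, hv, htv⟩ := treeB_unshift G hG N m w _ hself (u0 ++ [a]) _ rfl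
            have hv0 : v = [] := by
              rw [hwu] at hv
              simpa using hv
            subst hv0
            have hg : GS G N (m + 1) m [Sum.inl (lst (m + 1) [] (Sum.inr a) (A :: b))]
                [Sum.inr a] := GS.drop a (A :: b) (by simp) (by omega) hl htv
            have hst := Step.ex (G := GG G N (m + 1) m) u0 _ _ []
              (gs_univ G N (m + 1) m hg) (Or.inr hg)
            rw [List.append_nil] at hst
            refine AG.Tree.node _ _ hst ?_
            rintro x hx
            rw [Set.mem_singleton_iff] at hx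
            have e2 : (word u0 ++ [Sum.inr a] ++ [] : Form (Cell V T (m + 1)) T)
                = word w := by
              rw [hwu, word_append, List.append_nil]
              rfl
            rw [hx, e2]
            exact AG.Tree.leaf
          · have hg : GS G N (m + 1) m [Sum.inl (lst (m + 1) [] (Sum.inr a) (A :: b))]
                [Sum.inr a, Sum.inl (bot (m + 1) (A :: b))] :=
              GS.stay a (A :: b) (by simp) (by omega) hl
            have hst := Step.ex (G := GG G N (m + 1) m) u0 _ _ []
              (gs_univ G N (m + 1) m hg) (Or.inr hg)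
            rw [List.append_nil] at hst
            refine AG.Tree.node _ _ hst ?_
            rintro x hx
            rw [Set.mem_singleton_iff] at hx
            have := P2 (u0 ++ [a]) (A :: b) rfl hN0 hwu
            have e2 : (word u0 ++ [Sum.inr a, Sum.inl (bot (m + 1) (A :: b))] ++ [] :
                Form (Cell V T (m + 1)) T)
                = word (u0 ++ [a]) ++ [Sum.inl (bot (m + 1) (A :: b))] := by
              rw [word_append]
              simp [word]
            rw [hx, e2]
            exact this

theorem tree_word_eq [Finite V] [Finite T] (G : Grammar V T) (N : Set V) (m : ℕ)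
    (w u : List T) (h : AG.Tree (GG G N (m + 1) m) w (word u)) : w = u := by
  generalize hx : (word u : Form (Cell V T (m + 1)) T) = x at h
  cases h with
  | leaf => exact (word_inj _ u w hx).symm
  | node _ C hC _ =>
    rw [← hx] at hC
    exact (no_step_word G N m u hC).elim

theorem lb_only (N : Set V) (m : ℕ) (u : List T) (A : V) (b : List V)
    (hl : (A :: b).length ≤ m) : LB N m (word u ++ (A :: b).map Sum.inl : Form V T) := by
  rw [lb_left]
  intro x b2 q hf hb2
  have := congrArg List.length hf
  simp only [List.length_append, List.length_map] at this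
  omega

theorem back [Finite V] [Finite T] (G : Grammar V T) (hG : ContextFree G) (N : Set V) (m : ℕ)
    (hN : ∀ (A : V) (r : Form V T), A ∉ N → ([Sum.inl A], r) ∈ G.P → ∃ z ∈ r, Out N z)
    (w : List T) (x : Form (Cell V T (m + 1)) T) (h : AG.Tree (GG G N (m + 1) m) w x) :
    (∀ g, x = encL N (m + 1) [] g → TreeB G N m w g) ∧
      (∀ (u : List T) (b : List V), (∀ B ∈ b, B ∈ N) →
        x = word u ++ [Sum.inl (bot (m + 1) b)] → TreeB G N m w (word u ++ b.map Sum.inl)) := by
  induction h with
  | leaf =>
    constructor
    · intro g he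
      rcases form_cases g with ⟨v, rfl⟩ | ⟨u, A, d, rfl⟩
      · by_cases hv : v = []
        · subst hv
          have : Sum.inl (bot (m + 1) []) ∈ (word w : Form (Cell V T (m + 1)) T) := by
            rw [he]
            simp [word, encL]
          exact absurd this (inl_word _ w)
        · rw [encL_wordonly N (m + 1) v hv] at he
          rw [word_inj _ w v he]
          exact TreeB.leaf
      · exfalso
        by_cases hL : LB N m (word u ++ Sum.inl A :: d)
        · by_cases hm : HasOut N (Sum.inl A :: d) ∨ u = []
          · obtain ⟨l, p, e, hl, h1, _⟩ := sim G N m hN u A d hL hm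
            obtain ⟨C, a, rfl⟩ := ls_cons N (m + 1) m hl
            rw [h1] at he
            have : Sum.inl C ∈ (word w : Form (Cell V T (m + 1)) T) := by
              rw [he]
              simp
            exact inl_word _ w this
          · push Not at hm
            obtain ⟨hO, hu0⟩ := hm
            obtain ⟨b0, hb0, hN0⟩ := no_out N _ hO
            rcases b0 with _ | ⟨A', b⟩
            · simp at hb0
            · simp only [List.map_cons, List.cons.injEq, Sum.inl.injEq] at hb0
              obtain ⟨rfl, rfl⟩ := hb0
              rcases List.eq_nil_or_concat u with rfl | ⟨u0, a, rfl⟩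
              · exact absurd rfl hu0
              · rw [List.concat_eq_append] at he
                have e1 : (word (u0 ++ [a]) ++ Sum.inl A :: b.map Sum.inl : Form V T)
                    = word (u0 ++ [a]) ++ (A :: b).map Sum.inl := rfl
                rw [e1, encL_guess N (m + 1) u0 a A b hN0] at he
                have : Sum.inl (lst (m + 1) [] (Sum.inr a) (A :: b)) ∈
                    (word w : Form (Cell V T (m + 1)) T) := by
                  rw [he]
                  simp
                exact inl_word _ w this
        · obtain ⟨y, D, e, h1, _⟩ := bad_lead N m u A d hL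
          rw [h1] at he
          have : Sum.inl D ∈ (word w : Form (Cell V T (m + 1)) T) := by
            rw [he]
            simp
          exact inl_word _ w this
    · intro u b _ he
      have : Sum.inl (bot (m + 1) b) ∈ (word w : Form (Cell V T (m + 1)) T) := by
        rw [he]
        simp
      exact absurd this (inl_word _ w)
  | node x C hC hT ih =>
    constructor
    · intro g he
      rcases form_cases g with ⟨v, rfl⟩ | ⟨u, A, d, rfl⟩
      · by_cases hv : v = []
        · subst hv
          have he' : x = word [] ++ [Sum.inl (bot (m + 1) [])] := by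
            rw [he]
            simp [word, encL]
          rw [he'] at hC
          exact (no_step_bot G N m [] hC).elim
        · rw [encL_wordonly N (m + 1) v hv] at he
          rw [he] at hC
          exact (no_step_word G N m v hC).elim
      · by_cases hL : LB N m (word u ++ Sum.inl A :: d)
        · by_cases hm : HasOut N (Sum.inl A :: d) ∨ u = []
          · obtain ⟨l, p, e, hl, h1, h2⟩ := sim G N m hN u A d hL hm
            rw [h1] at he
            obtain ⟨R, hR, hRC⟩ := down G N (m + 1) m hl u e x C hC he
            refine TreeB.node _ ((fun r => word u ++ r ++ d) '' R) hL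
              ((step_iff G hG _ _).2 ⟨u, A, d, R, hR, rfl, rfl⟩) ?_
            rintro x' ⟨r, hrR, rfl⟩
            have hrP := ch_mem G hR hrR
            exact (ih _ (hRC r hrR)).1 _ (h2 r hrP).symm
          · push Not at hm
            obtain ⟨hO, hu0⟩ := hm
            obtain ⟨b0, hb0, hN0⟩ := no_out N _ hO
            rcases b0 with _ | ⟨A', b⟩
            · simp at hb0
            · simp only [List.map_cons, List.cons.injEq, Sum.inl.injEq] at hb0
              obtain ⟨rfl, rfl⟩ := hb0
              rcases List.eq_nil_or_concat u with rfl | ⟨u0, a, rfl⟩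
              · exact absurd rfl hu0
              · rw [List.concat_eq_append] at he hL ⊢
                have hl : (A :: b).length ≤ m := by
                  refine hL (u0 ++ [a]) (A :: b) [] ?_ hN0
                  simp
                have e1 : (word (u0 ++ [a]) ++ Sum.inl A :: b.map Sum.inl : Form V T)
                    = word (u0 ++ [a]) ++ (A :: b).map Sum.inl := rfl
                rw [e1, encL_guess N (m + 1) u0 a A b hN0] at he
                have hg0 : GS G N (m + 1) m [Sum.inl (lst (m + 1) [] (Sum.inr a) (A :: b))]
                    [Sum.inr a, Sum.inl (bot (m + 1) (A :: b))] :=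
                  GS.stay a (A :: b) (by simp) (by omega) hl
                cases hC with
                | ex y l' r' e' hu hP =>
                  rcases hP with ⟨A', p', r, hl', hrP, hr2⟩ | hg
                  · exact (ls_gs G N (m + 1) m hl' hg0 y u0 e' [] (by rw [he]; simp)).elim
                  · have key : ∀ (a2 : T) (e2 : List V), e2.length ≤ m + 1 →
                        (word y ++ [Sum.inl (lst (m + 1) [] (Sum.inr a2) e2)] ++ e' :
                          Form (Cell V T (m + 1)) T) =
                          word u0 ++ [Sum.inl (lst (m + 1) [] (Sum.inr a) (A :: b))] →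
                        y = u0 ∧ a2 = a ∧ e2 = A :: b ∧ e' = [] := by
                      intro a2 e2 hk h0
                      have h0' : word y ++ Sum.inl (lst (m + 1) [] (Sum.inr a2) e2) :: e' =
                          word u0 ++ Sum.inl (lst (m + 1) [] (Sum.inr a) (A :: b)) :: [] := by
                        rw [← h0]
                        simp
                      obtain ⟨k1, k2, k3⟩ := var_unique y u0 _ _ _ _ h0'
                      simp only [lst, Prod.mk.injEq, Option.some.injEq, Sum.inr.injEq,
                        true_and] at k2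
                      exact ⟨k1, k2.1, tk_inj (m + 1) _ _ hk (by omega) k2.2, k3⟩
                    simp only at hg
                    cases hg with
                    | stay a2 e2 _ hk _ =>
                      obtain ⟨rfl, rfl, rfl, rfl⟩ := key a2 e2 hk he
                      refine (ih _ rfl).2 (y ++ [a2]) (A :: b) hN0 ?_
                      rw [word_append]
                      simp [word]
                    | drop a2 e2 _ hk _ htr =>
                      obtain ⟨rfl, rfl, rfl, rfl⟩ := key a2 e2 hk he
                      have h1 := hT _ rfl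
                      have e2 : (word y ++ [Sum.inr a2] ++ [] : Form (Cell V T (m + 1)) T)
                          = word (y ++ [a2]) := by
                        rw [word_append, List.append_nil]
                        rfl
                      rw [e2] at h1
                      have h2 := tree_word_eq G N m w _ h1
                      have h3 := treeB_left G hG N m (y ++ [a2]) [] _ htr
                      rw [List.append_nil, ← h2] at h3
                      rw [← h2]
                      exact h3
                | all y l' e' hu hP =>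
                  obtain ⟨r', hP⟩ := hP
                  rcases hP with ⟨A', p', r, hl', hrP, hr2⟩ | hg
                  · exact (ls_gs G N (m + 1) m hl' hg0 y u0 e' [] (by rw [he]; simp)).elim
                  · exact (gs_univ G N (m + 1) m hg hu).elim
        · obtain ⟨y, D, e, h1, hD⟩ := bad_lead N m u A d hL
          exact (no_step_bad G N m y D e x (by rw [he, h1]) hD hC).elim
    · intro u b hNb he
      rcases b with _ | ⟨A, b⟩
      · rw [he] at hC
        exact (no_step_bot G N m u hC).elim
      · by_cases hl : (A :: b).length ≤ m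
        · obtain ⟨R, hR, hRC⟩ := down G N (m + 1) m
            (LS.bt A b (hNb A (by simp)) (by omega) hl) u [] x C hC (by rw [he]; simp)
          refine TreeB.node _ ((fun r => word u ++ r ++ b.map Sum.inl) '' R)
            (lb_only N m u A b hl)
            ((step_iff G hG _ _).2 ⟨u, A, b.map Sum.inl, R, hR, rfl, rfl⟩) ?_
          rintro x' ⟨r, hrR, rfl⟩
          have hmem := hRC r hrR
          by_cases hO : HasOut N (r ++ b.map Sum.inl)
          · refine (ih _ hmem).1 _ ?_
            simp only [List.append_assoc, List.append_nil]
            rw [encL_word N (m + 1) u _ hO]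
          · obtain ⟨b2, hb2, hN2⟩ := no_out N _ hO
            have e3 : (word u ++ r ++ b.map Sum.inl : Form V T)
                = word u ++ b2.map Sum.inl := by
              simp only [List.append_assoc, hb2]
            simp only [e3]
            refine (ih _ hmem).2 u b2 hN2 ?_
            simp only [hb2]
            rw [encL_bot N (m + 1) b2 [] hN2]
            simp
        · refine (no_step_bad G N m u (bot (m + 1) (A :: b)) [] x he (Or.inl ?_) hC).elim
          exact tk_full m _ (by omega)

end Pool.Agent.H43.AG3
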