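import Pool.Agent.H43.AG3.Bis
import Pool.Agent.H43.AG2.Final

/-!
# Trees with bounded blocks of nullable variables: the theorem
-/

set_option autoImplicit false

namespace Pool.Agent.H43.AG3

open Classical Pool.Agent.H43.AG Pool.Agent.H43.AG2

variable {V T : Type}

theorem finE_pos (N : Set V) (c : ℕ) (t : Option (List V)) (p : Form V T) (z : V ⊕ T)
    (hz : Out N z) : 1 ≤ (finE N c t (p ++ [z])).length := by
  cases t with
  | none => exact enc_length_pos N c [] p z hz
  | some e => exact encL_pos N c _ _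

theorem finE_two (N : Set V) (c : ℕ) (t : Option (List V)) (r p : Form V T) (z : V ⊕ T)
    (hz : Out N z) (hr : ∃ y ∈ r, Out N y) :
    2 ≤ (finE N c t (r ++ p ++ [z])).length := by
  obtain ⟨y, hy, hy2⟩ := hr
  obtain ⟨r1, r2, rfl⟩ := List.append_of_mem hy
  cases t with
  | none =>
    have e1 : (r1 ++ y :: r2) ++ p ++ [z] = r1 ++ y :: ((r2 ++ p) ++ [z]) := by simp
    rw [e1]
    have h1 := enc_length_pos N c [] r1 y hy2
    have h2 := enc_length_pos N c [] (r2 ++ p) z hz
    rw [finE, enc_append N c y hy2, List.length_append]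
    omega
  | some e =>
    have e1 : ((r1 ++ y :: r2) ++ p ++ [z]) ++ e.map Sum.inl
        = r1 ++ y :: ((r2 ++ p) ++ z :: e.map Sum.inl) := by simp
    have h1 := enc_length_pos N c [] r1 y hy2
    have h2 := encL_pos N c ((r2 ++ p) ++ z :: e.map Sum.inl) []
    rw [finE, e1, encL_append N c y hy2 _ ⟨z, by simp, hz⟩, List.length_append]
    omega

theorem gg_shape [Finite V] [Finite T] (G : Grammar V T) (N : Set V) (m : ℕ) :
    LmShape (GG G N (m + 1) m) := by
  rintro ⟨l, r⟩ h
  obtain ⟨C, a, rfl, _⟩ := pp_cons G N m h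
  exact ⟨[], C, a, r, rfl, rfl⟩

theorem gg_non [Finite V] [Finite T] (G : Grammar V T) (N : Set V) (m : ℕ)
    (hN : ∀ (A : V) (r : Form V T), A ∉ N → ([Sum.inl A], r) ∈ G.P → ∃ z ∈ r, Out N z) :
    NonContracting (GG G N (m + 1) m) := by
  rintro ⟨l, r'⟩ (⟨A, p, r, hl, hrP, hr2⟩ | hg)
  · simp only at hl hr2 ⊢
    subst hr2
    cases hl with
    | one A b z t hA hz hb hbm ht =>
      simp only [List.length_cons, List.length_nil]
      exact finE_pos N (m + 1) t (r ++ b.map Sum.inl) z hz
    | two Z b z t hZ hz hb ht =>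
      simp only [List.length_cons, List.length_nil]
      exact finE_two N (m + 1) t r (b.map Sum.inl) z hz (hN A r hZ hrP)
    | bt A b hA hb hbm => exact encL_pos N (m + 1) _ _
    | last Z e hZ he => exact encL_pos N (m + 1) _ _
  · simp only at hg ⊢
    cases hg with
    | stay a e _ _ _ => simp
    | drop a e _ _ _ _ => simp

theorem gg_lang [Finite V] [Finite T] (G : Grammar V T) (hG : ContextFree G) (N : Set V)
    (m : ℕ)
    (hN : ∀ (A : V) (r : Form V T), A ∉ N → ([Sum.inl A], r) ∈ G.P → ∃ z ∈ r, Out N z) :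
    Lang (GG G N (m + 1) m) = {w | w ≠ [] ∧ TreeB G N m w [Sum.inl G.S]} := by
  ext w
  constructor
  · intro h
    have h' : AG.Tree (GG G N (m + 1) m) w [Sum.inl (startCell G N (m + 1))] := h
    have hw : w ≠ [] := by
      intro h0
      obtain ⟨t, ht⟩ := tree_treeD (GG G N (m + 1) m) w _ h'
      have := length_le (GG G N (m + 1) m) (gg_non G N m hN) w t _ ht
      rw [h0] at this
      simp at this
    refine ⟨hw, ?_⟩
    rw [← start_enc] at h'
    exact (back G hG N m hN w _ h').1 _ rfl
  · rintro ⟨hw, h⟩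
    have := (forth G hG N m hN w hw _ h).1
    rw [start_enc] at this
    exact this

theorem blocks_thm [Finite V] [Finite T] (G : Grammar V T) (hG : ContextFree G) (N : Set V)
    (hN : ∀ (A : V) (r : Form V T), A ∉ N → ([Sum.inl A], r) ∈ G.P → ∃ z ∈ r, Out N z)
    (m : ℕ) : ∃ (V' : Type) (_ : Finite V') (G' : Grammar V' T),
      LmShape G' ∧ NonContracting G' ∧
        Lang G' = {w | w ≠ [] ∧ TreeB G N m w [Sum.inl G.S]} := by
  have hfin : Finite (Blk V (m + 1)) := (List.finite_length_le V (m + 1)).to_subtype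
  exact ⟨Cell V T (m + 1), inferInstance, GG G N (m + 1) m, gg_shape G N m, gg_non G N m hN,
    gg_lang G hG N m hN⟩

theorem lb_mono (N : Set V) {m n : ℕ} (h : m ≤ n) (f : Form V T) (hf : LB N m f) :
    LB N n f := fun u b q h1 h2 => (hf u b q h1 h2).trans h

theorem treeB_mono (G : Grammar V T) (N : Set V) {m n : ℕ} (h : m ≤ n) (w : List T)
    (f : Form V T) (hf : TreeB G N m w f) : TreeB G N n w f := by
  induction hf with
  | leaf => exact TreeB.leaf
  | node f C hL hC _ ih => exact TreeB.node f C (lb_mono N h f hL) hC ih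

theorem treeB_tree (G : Grammar V T) (N : Set V) (m : ℕ) (w : List T)
    (f : Form V T) (hf : TreeB G N m w f) : AG.Tree G w f := by
  induction hf with
  | leaf => exact AG.Tree.leaf
  | node f C _ hC _ ih => exact AG.Tree.node f C hC ih

theorem tree_treeB (G : Grammar V T) (N : Set V) (w : List T) (f : Form V T)
    (hf : AG.Tree G w f) : ∃ m, TreeB G N m w f := by
  induction hf with
  | leaf => exact ⟨0, TreeB.leaf⟩
  | node f C hC _ ih =>
    choose! t ht using ih
    obtain ⟨M, hM⟩ := ((step_finite G hC).image t).bddAbove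
    refine ⟨max M f.length, TreeB.node f C ?_ hC fun g hg => ?_⟩
    · intro u b q h1 _
      have := congrArg List.length h1
      simp only [List.length_append, List.length_map] at this
      have h2 : b.length ≤ f.length := by omega
      exact h2.trans (le_max_right _ _)
    · exact treeB_mono G N ((hM ⟨g, hg, rfl⟩).trans (le_max_left _ _)) w g (ht g hg)

theorem lang_iff (G : Grammar V T) (N : Set V) (w : List T) :
    w ∈ Lang G ↔ ∃ m, TreeB G N m w [Sum.inl G.S] :=
  ⟨fun h => tree_treeB G N w _ h, fun ⟨m, h⟩ => treeB_tree G N m w _ h⟩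

end Pool.Agent.H43.AG3
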