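import Pool.Agent.H43.AG3.Sim

/-!
# Bounded blocks of nullable variables: the simulating grammar and one step
-/

set_option autoImplicit false

namespace Pool.Agent.H43.AG3

open Classical Pool.Agent.H43.AG Pool.Agent.H43.AG2

variable {V T : Type}

theorem pp_finite [Finite V] [Finite T] (G : Grammar V T) (N : Set V) (c m : ℕ) :
    (PP G N c m).Finite := by
  let K : Set (List V) := {b : List V | b.length ≤ c}
  have hK : K.Finite := List.finite_length_le V c
  let O : Set (Option (List V)) := insert none (some '' K)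
  have hO : O.Finite := (hK.image some).insert none
  have hOk : ∀ t : Option (List V), Ok N c t → t ∈ O := by
    intro t ht
    cases t with
    | none => exact Or.inl rfl
    | some e => exact Or.inr ⟨e, (ht e rfl).1, rfl⟩
  let J : Set (V × List V × (V ⊕ T) × Option (List V) × Form V T) :=
    Set.univ ×ˢ K ×ˢ Set.univ ×ˢ O ×ˢ (Prod.snd '' G.P)
  have hJ : J.Finite :=
    Set.finite_univ.prod (hK.prod (Set.finite_univ.prod (hO.prod (G.fin.image _))))
  let J2 : Set (T × List V) := Set.univ ×ˢ K
  have hJ2 : J2.Finite := Set.finite_univ.prod hK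
  refine ((hJ.image (fun q => (([symT c (q.1 :: q.2.1) q.2.2.1 q.2.2.2.1] :
      Form (Cell V T c) T), finE N c q.2.2.2.1 (q.2.2.2.2 ++ q.2.1.map Sum.inl ++ [q.2.2.1])))).union
    ((hJ.image (fun q => (([Sum.inl (mk c [] (Sum.inl q.1)), symT c q.2.1 q.2.2.1 q.2.2.2.1] :
      Form (Cell V T c) T), finE N c q.2.2.2.1 (q.2.2.2.2 ++ q.2.1.map Sum.inl ++ [q.2.2.1])))).union
    ((hJ.image (fun q => (([Sum.inl (bot c (q.1 :: q.2.1))] : Form (Cell V T c) T),
      encL N c [] (q.2.2.2.2 ++ q.2.1.map Sum.inl)))).union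
    ((hJ.image (fun q => (([Sum.inl (lst c [] (Sum.inl q.1) q.2.1)] : Form (Cell V T c) T),
      encL N c [] (q.2.2.2.2 ++ q.2.1.map Sum.inl)))).union
    ((hJ2.image (fun q => (([Sum.inl (lst c [] (Sum.inr q.1) q.2)] : Form (Cell V T c) T),
      ([Sum.inr q.1, Sum.inl (bot c q.2)] : Form (Cell V T c) T)))).union
    (hJ2.image (fun q => (([Sum.inl (lst c [] (Sum.inr q.1) q.2)] : Form (Cell V T c) T),
      ([Sum.inr q.1] : Form (Cell V T c) T))))))))).subset ?_
  rintro ⟨l, r'⟩ (⟨A, p, r, hl, hr, hr'⟩ | hg)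
  · simp only at hl hr'
    subst hr'
    cases hl with
    | one A b z t hA hz hb hbm ht =>
      have hb' : b ∈ K := by
        rw [List.length_cons] at hb
        exact (by omega : b.length ≤ c)
      exact Or.inl ⟨(A, b, z, t, r), ⟨trivial, hb', trivial, hOk t ht, ⟨_, hr, rfl⟩⟩, rfl⟩
    | two Z b z t hZ hz hb ht =>
      exact Or.inr (Or.inl ⟨(A, b, z, t, r),
        ⟨trivial, hb, trivial, hOk t ht, ⟨_, hr, rfl⟩⟩, rfl⟩)
    | bt A b hA hb hbm =>
      have hb' : b ∈ K := by
        rw [List.length_cons] at hb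
        exact (by omega : b.length ≤ c)
      exact Or.inr (Or.inr (Or.inl ⟨(A, b, Sum.inl A, none, r),
        ⟨trivial, hb', trivial, Or.inl rfl, ⟨_, hr, rfl⟩⟩, rfl⟩))
    | last Z e hZ he =>
      exact Or.inr (Or.inr (Or.inr (Or.inl ⟨(A, e, Sum.inl A, none, r),
        ⟨trivial, he, trivial, Or.inl rfl, ⟨_, hr, rfl⟩⟩, rfl⟩)))
  · simp only at hg
    cases hg with
    | stay a e _ he _ => exact Or.inr (Or.inr (Or.inr (Or.inr (Or.inl ⟨(a, e), ⟨trivial, he⟩, rfl⟩))))
    | drop a e _ he _ _ =>
      exact Or.inr (Or.inr (Or.inr (Or.inr (Or.inr ⟨(a, e), ⟨trivial, he⟩, rfl⟩))))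

/-- the start cell -/
noncomputable def startCell (G : Grammar V T) (N : Set V) (c : ℕ) : Cell V T c :=
  if G.S ∈ N then bot c [G.S] else lst c [] (Sum.inl G.S) []

/-- the simulating grammar -/
noncomputable def GG [Finite V] [Finite T] (G : Grammar V T) (N : Set V) (c m : ℕ) :
    Grammar (Cell V T c) T where
  S := startCell G N c
  U := {q | (∃ A b, q.1.1 = A :: b ∧ A ∈ G.U) ∨
    (q.1.1 = [] ∧ ∃ Z ∈ G.U, q.2.1 = some (Sum.inl Z))}
  P := PP G N c m
  fin := pp_finite G N c m

theorem start_enc (G : Grammar V T) (N : Set V) (c : ℕ) :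
    encL N c [] [Sum.inl G.S] = [Sum.inl (startCell G N c)] := by
  rw [startCell]
  split_ifs with h
  · rw [encL_in N c [] G.S _ h]
    rfl
  · have := encL_last N c [] (Sum.inl G.S : V ⊕ T) [] h (by simp)
    exact this

theorem lead_var_univ {V' : Type} (G : Grammar V' T) (C : V') (a : Form V' T) :
    Universal G (Sum.inl C :: a) ↔ C ∈ G.U := by
  constructor
  · rintro ⟨x, B, d, h, hB⟩
    obtain ⟨_, rfl, _⟩ := var_unique [] x C B a d h
    exact hB
  · intro h
    exact ⟨[], C, a, rfl, h⟩

theorem cell_cons [Finite V] [Finite T] (G : Grammar V T) (N : Set V) (c m : ℕ) (A : V)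
    (b : List V) (hb : (A :: b).length ≤ c) (q : Option (V ⊕ T) × Option (Blk V c)) :
    ((tk c (A :: b), q) : Cell V T c) ∈ (GG G N c m).U ↔ A ∈ G.U := by
  have e : (tk c (A :: b)).1 = A :: b := List.take_of_length_le hb
  constructor
  · rintro (⟨A', b', h1, h2⟩ | ⟨h1, _⟩)
    · have h1' : A :: b = A' :: b' := e.symm.trans h1
      simp only [List.cons.injEq] at h1'
      rw [h1'.1]
      exact h2
    · have h1' : A :: b = [] := e.symm.trans h1
      simp at h1'
  · intro h
    exact Or.inl ⟨A, b, e, h⟩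

theorem cell_nil [Finite V] [Finite T] (G : Grammar V T) (N : Set V) (c m : ℕ) (A : V)
    (q : Option (Blk V c)) :
    ((tk c [], some (Sum.inl A), q) : Cell V T c) ∈ (GG G N c m).U ↔ A ∈ G.U := by
  constructor
  · rintro (⟨A', b', h1, h2⟩ | ⟨_, Z', h1, h2⟩)
    · simp [tk] at h1
    · simp only [Option.some.injEq, Sum.inl.injEq] at h2
      rw [h2]
      exact h1
  · intro h
    exact Or.inr ⟨by simp [tk], A, h, rfl⟩

theorem ls_univ [Finite V] [Finite T] (G : Grammar V T) (N : Set V) (c m : ℕ)
    {l : Form (Cell V T c) T} {A : V} {p : Form V T → Form (Cell V T c) T}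
    (h : LS N c m l A p) : Universal (GG G N c m) l ↔ A ∈ G.U := by
  cases h with
  | one A b z t hA hz hb hbm ht =>
    rw [symT_cons, lead_var_univ]
    exact cell_cons G N c m A b hb _
  | two Z b z t hZ hz hb ht =>
    rw [lead_var_univ]
    exact cell_nil G N c m A none
  | bt A b hA hb hbm =>
    rw [lead_var_univ]
    exact cell_cons G N c m A b hb _
  | last Z e hZ he =>
    rw [lead_var_univ]
    exact cell_nil G N c m A _

theorem gs_univ [Finite V] [Finite T] (G : Grammar V T) (N : Set V) (c m : ℕ)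
    {l r : Form (Cell V T c) T} (h : GS G N c m l r) : ¬ Universal (GG G N c m) l := by
  have key : ∀ (a : T) (e : List V),
      ¬ Universal (GG G N c m) [Sum.inl (lst c [] (Sum.inr a) e)] := by
    intro a e hu
    rw [lead_var_univ] at hu
    rcases hu with ⟨A', b', h1, h2⟩ | ⟨_, Z', h1, h2⟩
    · simp [lst, tk] at h1
    · simp [lst] at h2
  cases h with
  | stay a e _ _ _ => exact key a e
  | drop a e _ _ _ _ => exact key a e

theorem tail_spec (N : Set V) (c : ℕ) (hc : 0 < c) (d : Form V T) (hd : HasOut N d) :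
    ∃ (b : List V) (z : V ⊕ T) (q : Form V T) (t : Option (List V)) (e : Form (Cell V T c) T),
      d = b.map Sum.inl ++ z :: q ∧ (∀ B ∈ b, B ∈ N) ∧ Out N z ∧ Ok N c t ∧
      (∀ b0 : List V, encL N c b0 d = symT c (b0 ++ b) z t :: e) ∧
      ∀ r : Form V T, encL N c [] (r ++ d) = finE N c t (r ++ b.map Sum.inl ++ [z]) ++ e := by
  obtain ⟨b, z, q, rfl, h2, h3⟩ := split_out N d hd
  by_cases hq : HasOut N q
  · refine ⟨b, z, q, none, encL N c [] q, rfl, h2, h3, fun e he => by simp at he, ?_, ?_⟩
    · intro b0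
      rw [encL_block N c _ b b0 h2, encL_out N c _ z q h3 hq]
      rfl
    · intro r
      have e1 : r ++ (b.map Sum.inl ++ z :: q) = (r ++ b.map Sum.inl) ++ z :: q := by simp
      rw [e1, encL_append N c z h3 q hq]
      rfl
  · obtain ⟨e, rfl, he⟩ := no_out N q hq
    by_cases hz : e = [] ∧ ∃ a, z = Sum.inr a
    · obtain ⟨rfl, a, rfl⟩ := hz
      refine ⟨b, Sum.inr a, [], none, [], rfl, h2, h3, fun e he => by simp at he, ?_, ?_⟩
      · intro b0
        rw [encL_block N c _ b b0 h2, encL_last N c _ (Sum.inr a) [] h3 (by simp)]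
        rfl
      · intro r
        have e1 : r ++ (b.map Sum.inl ++ (Sum.inr a :: (([] : List V).map Sum.inl)))
            = (r ++ b.map Sum.inl) ++ [Sum.inr a] := by simp
        rw [e1, encL_term N c a]
        simp [finE]
    · refine ⟨b, z, e.map Sum.inl, some (e.take c), [], rfl, h2, h3, ?_, ?_, ?_⟩
      · intro e' he'
        simp only [Option.some.injEq] at he'
        subst he'
        refine ⟨?_, fun B hB => he B (List.mem_of_mem_take hB)⟩
        rw [List.length_take]
        exact min_le_left _ _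
      · intro b0
        rw [encL_block N c _ b b0 h2, encL_last N c _ z e h3 he]
        have : symL c (b0 ++ b) z e = Sum.inl (lst c (b0 ++ b) z e) := by
          rcases e with _ | ⟨B, e⟩
          · rcases z with A | a
            · rfl
            · exact absurd ⟨rfl, a, rfl⟩ hz
          · rcases z with A | a <;> rfl
        have h5 := tk_trunc c [] e
        simp only [List.nil_append] at h5
        rw [this]
        simp only [symT, lst, h5]
      · intro r
        have e1 : r ++ (b.map Sum.inl ++ z :: e.map Sum.inl)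
            = (r ++ b.map Sum.inl ++ [z]) ++ e.map Sum.inl := by simp
        rw [e1, ← encL_trunc_e N c hc e he _ [] ⟨z, by simp, h3⟩]
        simp [finE]

theorem symT_trunc (c : ℕ) (hc : 0 < c) (b : List V) (z : V ⊕ T) (t : Option (List V)) :
    symT c (b.take c) z t = symT c b z t := by
  have h5 := tk_trunc c [] b
  have h6 := sym_trunc c hc [] b z
  simp only [List.nil_append] at h5 h6
  cases t with
  | none => exact h6
  | some e => simp only [symT, lst, h5]

theorem finE_trunc (N : Set V) (c : ℕ) (hc : 0 < c) (b : List V) (hb : ∀ B ∈ b, B ∈ N)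
    (z : V ⊕ T) (hz : Out N z) (t : Option (List V)) (ht : Ok N c t) (r : Form V T) :
    finE N c t (r ++ (b.take c).map Sum.inl ++ [z]) = finE N c t (r ++ b.map Sum.inl ++ [z]) := by
  cases t with
  | none => exact enc_trunc N c hc b hb z hz r []
  | some e =>
    have h1 := encL_trunc N c hc b hb z hz e (ht e rfl).2 r []
    simp only [finE, List.append_assoc, List.cons_append, List.nil_append] at h1 ⊢
    exact h1

theorem sim (G : Grammar V T) (N : Set V) (m : ℕ)
    (hN : ∀ (A : V) (r : Form V T), A ∉ N → ([Sum.inl A], r) ∈ G.P → ∃ z ∈ r, Out N z)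
    (u : List T) (A : V) (d : Form V T) (hr : LB N m (word u ++ Sum.inl A :: d))
    (hm : HasOut N (Sum.inl A :: d) ∨ u = []) :
    ∃ (l : Form (Cell V T (m + 1)) T) (p : Form V T → Form (Cell V T (m + 1)) T)
      (e : Form (Cell V T (m + 1)) T),
      LS N (m + 1) m l A p ∧ encL N (m + 1) [] (word u ++ Sum.inl A :: d) = word u ++ l ++ e ∧
      ∀ r, ([Sum.inl A], r) ∈ G.P →
        encL N (m + 1) [] (word u ++ r ++ d) = word u ++ p r ++ e := by
  by_cases hO : HasOut N (Sum.inl A :: d)
  · have hchild : ∀ r, ([Sum.inl A], r) ∈ G.P →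
        encL N (m + 1) [] (word u ++ r ++ d) = word u ++ encL N (m + 1) [] (r ++ d) := by
      intro r hrP
      rw [List.append_assoc]
      apply encL_word
      by_cases hA : A ∈ N
      · obtain ⟨y, hy, hy2⟩ := hO
        rcases List.mem_cons.1 hy with rfl | hy
        · exact absurd hA hy2
        · exact ⟨y, by simp [hy], hy2⟩
      · obtain ⟨z, hz, hz2⟩ := hN A r hA hrP
        exact ⟨z, by simp [hz], hz2⟩
    rw [encL_word N (m + 1) u _ hO]
    by_cases hA : A ∈ N
    · have hd : HasOut N d := by
        obtain ⟨y, hy, hy2⟩ := hO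
        rcases List.mem_cons.1 hy with rfl | hy
        · exact absurd hA hy2
        · exact ⟨y, hy, hy2⟩
      obtain ⟨b, z, q, t, e, h1, h2, h3, h4, h5, h6⟩ :=
        tail_spec N (m + 1) (Nat.succ_pos m) d hd
      have hl : (A :: b).length ≤ m := by
        refine hr u (A :: b) (z :: q) ?_ ?_
        · rw [h1]
          simp
        · intro B hB'
          rcases List.mem_cons.1 hB' with rfl | hB'
          · exact hA
          · exact h2 B hB'
      refine ⟨_, _, e, LS.one A b z t hA h3 (by omega) hl h4, ?_, ?_⟩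
      · rw [encL_in N (m + 1) [] A _ hA, h5]
        simp
      · intro r hrP
        rw [hchild r hrP, h6 r]
        simp
    · by_cases hd : HasOut N d
      · obtain ⟨b, z, q, t, e, h1, h2, h3, h4, h5, h6⟩ :=
          tail_spec N (m + 1) (Nat.succ_pos m) d hd
        refine ⟨_, _, e, LS.two A (b.take (m + 1)) z t hA h3
          (by rw [List.length_take]; exact min_le_left _ _) h4, ?_, ?_⟩
        · rw [encL_out N (m + 1) [] (Sum.inl A) d hA hd, h5, sym_nil_inl,
            symT_trunc (m + 1) (Nat.succ_pos m)]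
          simp
        · intro r hrP
          rw [hchild r hrP, h6 r, finE_trunc N (m + 1) (Nat.succ_pos m) b h2 z h3 t h4 r]
          simp
      · obtain ⟨e, rfl, he⟩ := no_out N d hd
        refine ⟨_, _, [], LS.last A (e.take (m + 1)) hA
          (by rw [List.length_take]; exact min_le_left _ _), ?_, ?_⟩
        · have h5 := tk_trunc (m + 1) [] e
          simp only [List.nil_append] at h5
          rw [encL_last N (m + 1) [] (Sum.inl A) e hA he]
          simp only [symL, lst, h5, List.append_nil]
        · intro r hrP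
          obtain ⟨z, hz, hz2⟩ := hN A r hA hrP
          rw [hchild r hrP, encL_trunc_e N (m + 1) (Nat.succ_pos m) e he r [] ⟨z, hz, hz2⟩]
          simp
  · have hu : u = [] := by
      rcases hm with h | h
      · exact absurd h hO
      · exact h
    subst hu
    obtain ⟨b0, hb0, hN0⟩ := no_out N _ hO
    rcases b0 with _ | ⟨A', b⟩
    · simp at hb0
    · simp only [List.map_cons, List.cons.injEq, Sum.inl.injEq] at hb0
      obtain ⟨rfl, rfl⟩ := hb0
      have hl : (A :: b).length ≤ m := by
        refine hr [] (A :: b) [] ?_ hN0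
        simp [word]
      refine ⟨_, _, [], LS.bt A b (hN0 A (by simp)) (by omega) hl, ?_, ?_⟩
      · have := encL_bot (T := T) N (m + 1) (A :: b) [] hN0
        simpa [word] using this
      · intro r _
        simp [word]

end Pool.Agent.H43.AG3
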