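import Pool.Agent.H43.AG3.Trunc

/-!
# Bounded blocks of nullable variables: the simulating grammar
-/

set_option autoImplicit false

namespace Pool.Agent.H43.AG3

open Classical Pool.Agent.H43.AG Pool.Agent.H43.AG2

variable {V T : Type}

/-- a cell with symbol `z` and block `b`, last (with final block `e`) or not -/
noncomputable def symT (c : ℕ) (b : List V) (z : V ⊕ T) : Option (List V) → Cell V T c ⊕ T
  | none => sym c b z
  | some e => Sum.inl (lst c b z e)

noncomputable def finE (N : Set V) (c : ℕ) (t : Option (List V)) (f : Form V T) :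
    Form (Cell V T c) T :=
  match t with
  | none => enc N c [] f
  | some e => encL N c [] (f ++ e.map Sum.inl)

/-- `z` may be followed by the final block `t` -/
def Ok (N : Set V) (c : ℕ) (t : Option (List V)) : Prop :=
  ∀ e, t = some e → e.length ≤ c ∧ ∀ B ∈ e, B ∈ N

/-- the left sides of the simulating grammar, the simulated variable and the encoded right
side; the cells hold blocks of at most `c` variables, left sides at most `m` of them in front -/
inductive LS (N : Set V) (c m : ℕ) :
    Form (Cell V T c) T → V → (Form V T → Form (Cell V T c) T) → Prop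
  | one (A : V) (b : List V) (z : V ⊕ T) (t : Option (List V)) : A ∈ N → Out N z →
      (A :: b).length ≤ c → (A :: b).length ≤ m → Ok N c t →
      LS N c m [symT c (A :: b) z t] A (fun r => finE N c t (r ++ b.map Sum.inl ++ [z]))
  | two (Z : V) (b : List V) (z : V ⊕ T) (t : Option (List V)) : Z ∉ N → Out N z →
      b.length ≤ c → Ok N c t →
      LS N c m [Sum.inl (mk c [] (Sum.inl Z)), symT c b z t] Z
        (fun r => finE N c t (r ++ b.map Sum.inl ++ [z]))
  | bt (A : V) (b : List V) : A ∈ N → (A :: b).length ≤ c → (A :: b).length ≤ m →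
      LS N c m [Sum.inl (bot c (A :: b))] A (fun r => encL N c [] (r ++ b.map Sum.inl))
  | last (Z : V) (e : List V) : Z ∉ N → e.length ≤ c →
      LS N c m [Sum.inl (lst c [] (Sum.inl Z) e)] Z (fun r => encL N c [] (r ++ e.map Sum.inl))

/-- the guess that the final block vanishes, or that it does not -/
inductive GS (G : Grammar V T) (N : Set V) (c m : ℕ) :
    Form (Cell V T c) T → Form (Cell V T c) T → Prop
  | stay (a : T) (e : List V) : e ≠ [] → e.length ≤ c → e.length ≤ m →
      GS G N c m [Sum.inl (lst c [] (Sum.inr a) e)] [Sum.inr a, Sum.inl (bot c e)]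
  | drop (a : T) (e : List V) : e ≠ [] → e.length ≤ c → e.length ≤ m →
      TreeB G N m [] (e.map Sum.inl) →
      GS G N c m [Sum.inl (lst c [] (Sum.inr a) e)] [Sum.inr a]

theorem tk_inj (c : ℕ) (b b' : List V) (hb : b.length ≤ c) (hb' : b'.length ≤ c)
    (h : tk c b = tk c b') : b = b' := by
  simp only [tk, Subtype.mk.injEq] at h
  rw [List.take_of_length_le hb, List.take_of_length_le hb'] at h
  exact h

theorem symT_cons (c : ℕ) (A : V) (b : List V) (z : V ⊕ T) (t : Option (List V)) :
    symT c (A :: b) z t = Sum.inl (tk c (A :: b), some z, t.map (tk c)) := by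
  cases t with
  | none => exact sym_eq_cons c A b z
  | some e => rfl

theorem ok_inj (N : Set V) (c : ℕ) (t t' : Option (List V)) (h : Ok N c t) (h' : Ok N c t')
    (e : t.map (tk c) = t'.map (tk c)) : t = t' := by
  cases t with
  | none =>
    cases t' with
    | none => rfl
    | some e' => simp at e
  | some e1 =>
    cases t' with
    | none => simp at e
    | some e2 =>
      simp only [Option.map_some, Option.some.injEq] at e
      rw [tk_inj c e1 e2 (h e1 rfl).1 (h' e2 rfl).1 e]

theorem symT_inj (N : Set V) (c : ℕ) (b b' : List V) (z z' : V ⊕ T) (t t' : Option (List V))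
    (hb : b.length ≤ c) (hb' : b'.length ≤ c) (ht : Ok N c t) (ht' : Ok N c t')
    (h : symT c b z t = symT c b' z' t') : b = b' ∧ z = z' ∧ t = t' := by
  cases t with
  | none =>
    cases t' with
    | none =>
      obtain ⟨h1, h2⟩ := sym_inj c b b' z z' hb hb' h
      exact ⟨h1, h2, rfl⟩
    | some e' =>
      rcases b with _ | ⟨A, b⟩
      · rcases z with A | a
        · simp [symT, sym_nil_inl, mk, lst] at h
        · simp [symT, sym] at h
      · simp [symT, sym_eq_cons, mk, lst] at h
  | some e =>
    cases t' with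
    | none =>
      rcases b' with _ | ⟨A, b'⟩
      · rcases z' with A | a
        · simp [symT, sym_nil_inl, mk, lst] at h
        · simp [symT, sym] at h
      · simp [symT, sym_eq_cons, mk, lst] at h
    | some e' =>
      simp only [symT, lst, Sum.inl.injEq, Prod.mk.injEq, Option.some.injEq] at h
      obtain ⟨h1, h2, h3⟩ := h
      exact ⟨tk_inj c b b' hb hb' h1, h2,
        by rw [tk_inj c e e' (ht e rfl).1 (ht' e' rfl).1 h3]⟩

theorem tk_cons_ne (c : ℕ) (A : V) (b : List V) (hb : (A :: b).length ≤ c)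
    (h : tk c (A :: b) = tk c []) : False := by
  have := tk_inj c (A :: b) [] hb (Nat.zero_le c) h
  simp at this

theorem ls_cons (N : Set V) (c m : ℕ) {l : Form (Cell V T c) T} {A : V}
    {p : Form V T → Form (Cell V T c) T} (h : LS N c m l A p) : ∃ C a, l = Sum.inl C :: a := by
  cases h with
  | one A b z t _ _ _ _ _ => exact ⟨_, _, by rw [symT_cons]⟩
  | two Z b z t _ _ _ _ => exact ⟨_, _, rfl⟩
  | bt A b _ _ _ => exact ⟨_, _, rfl⟩
  | last Z e _ _ => exact ⟨_, _, rfl⟩

/-- the data of a left side: first cell, rest -/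
theorem ls_unique (N : Set V) (c m : ℕ)
    {l l' : Form (Cell V T c) T} {A A' : V} {p p' : Form V T → Form (Cell V T c) T}
    (h : LS N c m l A p) (h' : LS N c m l' A' p') (u x : List T)
    (e d : Form (Cell V T c) T) (he : word u ++ l ++ e = word x ++ l' ++ d) :
    u = x ∧ l = l' ∧ e = d ∧ A = A' ∧ p = p' := by
  obtain ⟨C, a, hl⟩ := ls_cons N c m h
  obtain ⟨C', a', hl'⟩ := ls_cons N c m h'
  have he2 : word u ++ Sum.inl C :: (a ++ e) = word x ++ Sum.inl C' :: (a' ++ d) := by
    rw [hl, hl'] at he
    simpa using he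
  obtain ⟨hux, hC, ha⟩ := var_unique u x C C' _ _ he2
  cases h with
  | one A b z t hA hz hb hbm ht =>
    rw [symT_cons] at hl
    simp only [List.cons.injEq, Sum.inl.injEq] at hl
    obtain ⟨rfl, rfl⟩ := hl
    cases h' with
    | one A' b' z' t' hA' hz' hb' hbm' ht' =>
      rw [symT_cons] at hl'
      simp only [List.cons.injEq, Sum.inl.injEq] at hl'
      obtain ⟨rfl, rfl⟩ := hl'
      simp only [Prod.mk.injEq, Option.some.injEq] at hC
      obtain ⟨q1, q2, q3⟩ := hC
      have q1' := tk_inj c _ _ hb hb' q1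
      simp only [List.cons.injEq] at q1'
      obtain ⟨rfl, rfl⟩ := q1'
      have q3' := ok_inj N c t t' ht ht' q3
      subst q2 q3'
      exact ⟨hux, rfl, by simpa using ha, rfl, rfl⟩
    | two Z b' z' t' hZ hz' hb' ht' =>
      simp only [List.cons.injEq, Sum.inl.injEq] at hl'
      obtain ⟨rfl, rfl⟩ := hl'
      simp only [mk, Prod.mk.injEq] at hC
      exact (tk_cons_ne c A b hb hC.1).elim
    | bt A' b' hA' hb' hbm' =>
      simp only [List.cons.injEq, Sum.inl.injEq] at hl'
      obtain ⟨rfl, rfl⟩ := hl'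
      simp [bot] at hC
    | last Z e' hZ he' =>
      simp only [List.cons.injEq, Sum.inl.injEq] at hl'
      obtain ⟨rfl, rfl⟩ := hl'
      simp only [lst, Prod.mk.injEq] at hC
      exact (tk_cons_ne c A b hb hC.1).elim
  | two Z b z t hZ hz hb ht =>
    simp only [List.cons.injEq, Sum.inl.injEq] at hl
    obtain ⟨rfl, rfl⟩ := hl
    cases h' with
    | one A' b' z' t' hA' hz' hb' hbm' ht' =>
      rw [symT_cons] at hl'
      simp only [List.cons.injEq, Sum.inl.injEq] at hl'
      obtain ⟨rfl, rfl⟩ := hl'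
      simp only [mk, Prod.mk.injEq] at hC
      exact (tk_cons_ne c A' b' hb' hC.1.symm).elim
    | two Z' b' z' t' hZ' hz' hb' ht' =>
      simp only [List.cons.injEq, Sum.inl.injEq] at hl'
      obtain ⟨rfl, rfl⟩ := hl'
      simp only [mk, Prod.mk.injEq, Option.some.injEq, Sum.inl.injEq, and_true, true_and] at hC
      subst hC
      simp only [List.cons_append, List.nil_append, List.cons.injEq] at ha
      obtain ⟨h1, h2⟩ := ha
      obtain ⟨rfl, rfl, rfl⟩ := symT_inj N c b b' z z' t t' hb hb' ht ht' h1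
      exact ⟨hux, rfl, h2, rfl, rfl⟩
    | bt A' b' hA' hb' hbm' =>
      simp only [List.cons.injEq, Sum.inl.injEq] at hl'
      obtain ⟨rfl, rfl⟩ := hl'
      simp [bot, mk] at hC
    | last Z' e' hZ' he' =>
      simp only [List.cons.injEq, Sum.inl.injEq] at hl'
      obtain ⟨rfl, rfl⟩ := hl'
      simp [lst, mk] at hC
  | bt A b hA hb hbm =>
    simp only [List.cons.injEq, Sum.inl.injEq] at hl
    obtain ⟨rfl, rfl⟩ := hl
    cases h' with
    | one A' b' z' t' hA' hz' hb' hbm' ht' =>
      rw [symT_cons] at hl'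
      simp only [List.cons.injEq, Sum.inl.injEq] at hl'
      obtain ⟨rfl, rfl⟩ := hl'
      simp [bot] at hC
    | two Z b' z' t' hZ hz' hb' ht' =>
      simp only [List.cons.injEq, Sum.inl.injEq] at hl'
      obtain ⟨rfl, rfl⟩ := hl'
      simp [bot, mk] at hC
    | bt A' b' hA' hb' hbm' =>
      simp only [List.cons.injEq, Sum.inl.injEq] at hl'
      obtain ⟨rfl, rfl⟩ := hl'
      simp only [bot, Prod.mk.injEq, and_true] at hC
      have q1' := tk_inj c _ _ hb hb' hC
      simp only [List.cons.injEq] at q1'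
      obtain ⟨rfl, rfl⟩ := q1'
      exact ⟨hux, rfl, by simpa using ha, rfl, rfl⟩
    | last Z e' hZ he' =>
      simp only [List.cons.injEq, Sum.inl.injEq] at hl'
      obtain ⟨rfl, rfl⟩ := hl'
      simp [bot, lst] at hC
  | last Z e1 hZ he1 =>
    simp only [List.cons.injEq, Sum.inl.injEq] at hl
    obtain ⟨rfl, rfl⟩ := hl
    cases h' with
    | one A' b' z' t' hA' hz' hb' hbm' ht' =>
      rw [symT_cons] at hl'
      simp only [List.cons.injEq, Sum.inl.injEq] at hl'
      obtain ⟨rfl, rfl⟩ := hl'
      simp only [lst, Prod.mk.injEq] at hC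
      exact (tk_cons_ne c A' b' hb' hC.1.symm).elim
    | two Z' b' z' t' hZ' hz' hb' ht' =>
      simp only [List.cons.injEq, Sum.inl.injEq] at hl'
      obtain ⟨rfl, rfl⟩ := hl'
      simp [lst, mk] at hC
    | bt A' b' hA' hb' hbm' =>
      simp only [List.cons.injEq, Sum.inl.injEq] at hl'
      obtain ⟨rfl, rfl⟩ := hl'
      simp [bot, lst] at hC
    | last Z' e2 hZ' hk2 =>
      simp only [List.cons.injEq, Sum.inl.injEq] at hl'
      obtain ⟨rfl, rfl⟩ := hl'
      simp only [lst, Prod.mk.injEq, Option.some.injEq, Sum.inl.injEq, true_and] at hC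
      obtain ⟨rfl, q⟩ := hC
      have q' := tk_inj c e1 e2 he1 hk2 q
      subst q'
      exact ⟨hux, rfl, by simpa using ha, rfl, rfl⟩

/-- left sides of the two kinds are different -/
theorem ls_gs (G : Grammar V T) (N : Set V) (c m : ℕ) {l l' r' : Form (Cell V T c) T} {A : V}
    {p : Form V T → Form (Cell V T c) T} (h : LS N c m l A p) (h' : GS G N c m l' r') (u x : List T)
    (e d : Form (Cell V T c) T) (he : word u ++ l ++ e = word x ++ l' ++ d) : False := by
  obtain ⟨C, a, hl⟩ := ls_cons N c m h
  have hl' : ∃ (a' : T) (e' : List V), l' = [Sum.inl (lst c [] (Sum.inr a') e')] := by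
    cases h' with
    | stay a e _ _ _ => exact ⟨a, e, rfl⟩
    | drop a e _ _ _ _ => exact ⟨a, e, rfl⟩
  obtain ⟨a', e', hl'⟩ := hl'
  have he2 : word u ++ Sum.inl C :: (a ++ e)
      = word x ++ Sum.inl (lst c [] (Sum.inr a') e') :: d := by
    rw [hl, hl'] at he
    simpa using he
  obtain ⟨hux, hC, ha⟩ := var_unique u x C _ _ _ he2
  cases h with
  | one A b z t hA hz hb hbm ht =>
    rw [symT_cons] at hl
    simp only [List.cons.injEq, Sum.inl.injEq] at hl
    obtain ⟨rfl, rfl⟩ := hl
    simp only [lst, Prod.mk.injEq] at hC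
    exact (tk_cons_ne c A b hb hC.1).elim
  | two Z b z t hZ hz hb ht =>
    simp only [List.cons.injEq, Sum.inl.injEq] at hl
    obtain ⟨rfl, rfl⟩ := hl
    simp [lst, mk] at hC
  | bt A b hA hb hbm =>
    simp only [List.cons.injEq, Sum.inl.injEq] at hl
    obtain ⟨rfl, rfl⟩ := hl
    simp [bot, lst] at hC
  | last Z e1 hZ he1 =>
    simp only [List.cons.injEq, Sum.inl.injEq] at hl
    obtain ⟨rfl, rfl⟩ := hl
    simp [lst] at hC

/-- the productions of the simulating grammar -/
def PP (G : Grammar V T) (N : Set V) (c m : ℕ) :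
    Set (Form (Cell V T c) T × Form (Cell V T c) T) :=
  {q | (∃ (A : V) (p : Form V T → Form (Cell V T c) T) (r : Form V T), LS N c m q.1 A p ∧
    ([Sum.inl A], r) ∈ G.P ∧ q.2 = p r) ∨ GS G N c m q.1 q.2}

end Pool.Agent.H43.AG3
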