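import Pool.Agent.H43.AG2.Enc

/-!
# Trees with bounded blocks of nullable variables; truncation
-/

set_option autoImplicit false

namespace Pool.Agent.H43.AG3

open Classical Pool.Agent.H43.AG Pool.Agent.H43.AG2

variable {V T : Type}

/-- the block of variables of `N` which begins with the leftmost variable has length at most `m` -/
def LB (N : Set V) (m : ℕ) (f : Form V T) : Prop :=
  ∀ (u : List T) (b : List V) (q : Form V T), f = word u ++ b.map Sum.inl ++ q →
    (∀ B ∈ b, B ∈ N) → b.length ≤ m

/-- there is a tree as in `Tree` with all inner labels `f` satisfying `LB N m f` -/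
inductive TreeB (G : Grammar V T) (N : Set V) (m : ℕ) (w : List T) : Form V T → Prop
  | leaf : TreeB G N m w (word w)
  | node (f : Form V T) (C : Set (Form V T)) : LB N m f → Step G f C →
      (∀ g ∈ C, TreeB G N m w g) → TreeB G N m w f

theorem lb_left (N : Set V) (m : ℕ) (u : List T) (f : Form V T) :
    LB N m (word u ++ f) ↔ LB N m f := by
  constructor
  · intro h x b q hf hb
    exact h (u ++ x) b q (by rw [hf, word_append]; simp) hb
  · intro h x b q hf hb
    rcases b with _ | ⟨B, b⟩
    · exact Nat.zero_le m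
    · have hf' : word x ++ Sum.inl B :: (b.map Sum.inl ++ q) = word u ++ f := by
        rw [hf]
        simp
      obtain ⟨y, hy, hb2⟩ := var_pos u x B _ f hf'
      exact h y (B :: b) q (by rw [hb2]; simp) hb

theorem treeB_left (G : Grammar V T) (hG : ContextFree G) (N : Set V) (m : ℕ) (u v : List T)
    (b : Form V T) (h : TreeB G N m v b) : TreeB G N m (u ++ v) (word u ++ b) := by
  induction h with
  | leaf =>
    rw [← word_append]
    exact TreeB.leaf
  | node f C hL hC _ ih =>
    obtain ⟨x, A, d, R, hR, rfl, rfl⟩ := (step_iff G hG _ _).1 hC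
    refine TreeB.node _ ((fun r => word (u ++ x) ++ r ++ d) '' R) ((lb_left N m u _).2 hL)
      ((step_iff G hG _ _).2 ⟨u ++ x, A, d, R, hR, by rw [word_append]; simp, rfl⟩) ?_
    rintro g ⟨r, hr, rfl⟩
    have := ih _ ⟨r, hr, rfl⟩
    simpa [word_append] using this

theorem treeB_unshift (G : Grammar V T) (hG : ContextFree G) (N : Set V) (m : ℕ) (w : List T)
    (h : Form V T) (ht : TreeB G N m w h) : ∀ (u : List T) (b : Form V T), h = word u ++ b →
      ∃ v, w = u ++ v ∧ TreeB G N m v b := by
  induction ht with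
  | leaf =>
    intro u b hb
    obtain ⟨v, hv, rfl⟩ := word_split w u b hb
    exact ⟨v, hv, TreeB.leaf⟩
  | node f C hL hC _ ih =>
    intro u b hb
    obtain ⟨x, A, d, R, hR, rfl, rfl⟩ := (step_iff G hG _ _).1 hC
    obtain ⟨y, rfl, rfl⟩ := var_pos u x A d b hb
    obtain ⟨r0, hr0⟩ := ch_nonempty G hR
    obtain ⟨v, hv, _⟩ := ih _ ⟨r0, hr0, rfl⟩ u (word y ++ r0 ++ d)
      (by rw [word_append]; simp)
    have hL' : LB N m (word y ++ Sum.inl A :: d) := by
      rw [hb] at hL
      exact (lb_left N m u _).1 hL
    refine ⟨v, hv, TreeB.node _ ((fun r => word y ++ r ++ d) '' R) hL'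
      ((step_iff G hG _ _).2 ⟨y, A, d, R, hR, rfl, rfl⟩) ?_⟩
    rintro g ⟨r, hr, rfl⟩
    obtain ⟨v', hv', ht'⟩ := ih _ ⟨r, hr, rfl⟩ u (word y ++ r ++ d)
      (by rw [word_append]; simp)
    have : v' = v := by
      rw [hv] at hv'
      exact (List.append_cancel_left hv').symm
    rw [← this]
    exact ht'

theorem take_append_take {α : Type} (k : ℕ) (x b : List α) :
    (x ++ b.take k).take k = (x ++ b).take k := by
  rw [List.take_append, List.take_append, List.take_take]
  congr 2
  omega

theorem tk_trunc (k : ℕ) (x b : List V) : tk k (x ++ b.take k) = tk k (x ++ b) := by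
  simp only [tk, take_append_take]

theorem take_nil_iff {α : Type} (k : ℕ) (hk : 0 < k) (b : List α) :
    b.take k = [] ↔ b = [] := by
  constructor
  · intro h
    rcases b with _ | ⟨a, b⟩
    · rfl
    · rcases k with _ | k
      · omega
      · simp at h
  · rintro rfl
    simp

theorem sym_trunc (k : ℕ) (hk : 0 < k) (x b : List V) (z : V ⊕ T) :
    sym k (x ++ b.take k) z = sym k (x ++ b) z := by
  rcases x with _ | ⟨A, x⟩
  · rcases b with _ | ⟨B, b⟩
    · simp
    · obtain ⟨k, rfl⟩ : ∃ j, k = j + 1 := ⟨k - 1, by omega⟩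
      simp only [List.nil_append, List.take_succ_cons, sym_eq_cons, mk, Sum.inl.injEq,
        Prod.mk.injEq, and_true]
      have := tk_trunc (k + 1) [] (B :: b)
      simpa using this
  · simp only [List.cons_append, sym_eq_cons, mk, Sum.inl.injEq, Prod.mk.injEq, and_true]
    have := tk_trunc k (A :: x) b
    simpa using this

theorem symL_cons (k : ℕ) (b : List V) (z : V ⊕ T) (B : V) (e : List V) :
    symL k b z (B :: e) = Sum.inl (lst k b z (B :: e)) := by
  rcases z with _ | _ <;> rfl

theorem symL_trunc_e (k : ℕ) (hk : 0 < k) (b : List V) (z : V ⊕ T) (x e : List V) :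
    symL k b z (x ++ e.take k) = symL k b z (x ++ e) := by
  rcases x with _ | ⟨A, x⟩
  · rcases e with _ | ⟨B, e⟩
    · simp
    · obtain ⟨k, rfl⟩ : ∃ j, k = j + 1 := ⟨k - 1, by omega⟩
      simp only [List.nil_append, List.take_succ_cons, symL_cons, lst, Sum.inl.injEq,
        Prod.mk.injEq, Option.some.injEq, true_and]
      have := tk_trunc (k + 1) [] (B :: e)
      simpa using this
  · simp only [List.cons_append, symL_cons, lst, Sum.inl.injEq, Prod.mk.injEq,
      Option.some.injEq, true_and]
    have := tk_trunc k (A :: x) e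
    simpa using this

theorem symL_trunc_b (k : ℕ) (hk : 0 < k) (x b : List V) (z : V ⊕ T) (e : List V) :
    symL k (x ++ b.take k) z e = symL k (x ++ b) z e := by
  rcases e with _ | ⟨B, e⟩
  · rcases z with A | a
    · simp only [symL, lst, tk_trunc]
    · exact sym_trunc k hk x b (Sum.inr a)
  · simp only [symL_cons, lst, tk_trunc]

theorem enc_trunc (N : Set V) (k : ℕ) (hk : 0 < k) (b : List V) (hb : ∀ B ∈ b, B ∈ N)
    (z : V ⊕ T) (hz : Out N z) : ∀ (x : Form V T) (b0 : List V),
    enc N k b0 (x ++ (b.take k).map Sum.inl ++ [z]) = enc N k b0 (x ++ b.map Sum.inl ++ [z])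
  | [], b0 => by
    have hb' : ∀ B ∈ b.take k, B ∈ N := fun B h => hb B (List.mem_of_mem_take h)
    rw [List.nil_append, List.nil_append, enc_block N k _ _ _ hb', enc_block N k _ _ _ hb,
      enc_out N k _ z [] hz, enc_out N k _ z [] hz, sym_trunc k hk]
  | y :: x, b0 => by
    simp only [List.cons_append]
    by_cases hy : Out N y
    · rw [enc_out N k b0 y _ hy, enc_out N k b0 y _ hy, enc_trunc N k hk b hb z hz x []]
    · rcases y with A | a
      · have hA : A ∈ N := not_not.1 hy
        rw [enc_in N k b0 A _ hA, enc_in N k b0 A _ hA, enc_trunc N k hk b hb z hz x _]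
      · exact absurd trivial hy

theorem encL_trunc (N : Set V) (k : ℕ) (hk : 0 < k) (b : List V) (hb : ∀ B ∈ b, B ∈ N)
    (z : V ⊕ T) (hz : Out N z) (e : List V) (he : ∀ B ∈ e, B ∈ N) :
    ∀ (x : Form V T) (b0 : List V),
    encL N k b0 (x ++ (b.take k).map Sum.inl ++ z :: e.map Sum.inl) =
      encL N k b0 (x ++ b.map Sum.inl ++ z :: e.map Sum.inl)
  | [], b0 => by
    have hb' : ∀ B ∈ b.take k, B ∈ N := fun B h => hb B (List.mem_of_mem_take h)
    rw [List.nil_append, List.nil_append, encL_block N k _ _ _ hb', encL_block N k _ _ _ hb,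
      encL_last N k _ z e hz he, encL_last N k _ z e hz he, symL_trunc_b k hk]
  | y :: x, b0 => by
    simp only [List.cons_append]
    by_cases hy : Out N y
    · rw [encL_out N k b0 y _ hy ⟨z, by simp, hz⟩, encL_out N k b0 y _ hy ⟨z, by simp, hz⟩,
        encL_trunc N k hk b hb z hz e he x []]
    · rcases y with A | a
      · have hA : A ∈ N := not_not.1 hy
        rw [encL_in N k b0 A _ hA, encL_in N k b0 A _ hA, encL_trunc N k hk b hb z hz e he x _]
      · exact absurd trivial hy

theorem encL_trunc_e (N : Set V) (k : ℕ) (hk : 0 < k) (e : List V) (he : ∀ B ∈ e, B ∈ N) :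
    ∀ (x : Form V T) (b0 : List V), HasOut N x →
    encL N k b0 (x ++ (e.take k).map Sum.inl) = encL N k b0 (x ++ e.map Sum.inl)
  | [], b0, h => by
    obtain ⟨y, hy, _⟩ := h
    simp at hy
  | y :: x, b0, h => by
    have he' : ∀ B ∈ e.take k, B ∈ N := fun B h => he B (List.mem_of_mem_take h)
    simp only [List.cons_append]
    by_cases hx : HasOut N x
    · by_cases hy : Out N y
      · obtain ⟨s, hs, hs2⟩ := hx
        rw [encL_out N k b0 y _ hy ⟨s, by simp [hs], hs2⟩,
          encL_out N k b0 y _ hy ⟨s, by simp [hs], hs2⟩,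
          encL_trunc_e N k hk e he x [] ⟨s, hs, hs2⟩]
      · rcases y with A | a
        · have hA : A ∈ N := not_not.1 hy
          rw [encL_in N k b0 A _ hA, encL_in N k b0 A _ hA, encL_trunc_e N k hk e he x _ hx]
        · exact absurd trivial hy
    · have hy : Out N y := by
        obtain ⟨s, hs, hs2⟩ := h
        rcases List.mem_cons.1 hs with rfl | hs
        · exact hs2
        · exact absurd ⟨s, hs, hs2⟩ hx
      obtain ⟨x1, rfl, hx1⟩ := no_out N x hx
      rw [← List.map_append, ← List.map_append, encL_last N k b0 y _ hy, encL_last N k b0 y _ hy,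
        symL_trunc_e k hk]
      · intro B hB
        rcases List.mem_append.1 hB with h | h
        · exact hx1 B h
        · exact he B h
      · intro B hB
        rcases List.mem_append.1 hB with h | h
        · exact hx1 B h
        · exact he' B h

end Pool.Agent.H43.AG3
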